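import Pool.Agent.Run7.h380.RF.Rank
import Pool.Agent.Erdos456.Iface
import Pool.Agent.Erdos456.Mertens

set_option autoImplicit false

/-!
# Few primes `n` such that `j n + 1` or `j n - 1` is a prime for a small `j`
-/

namespace Run7.h380.RF

open Finset Pool.Agent.Erdos456

theorem one_plus (C : ℝ) (h : ∀ a₁ b₁ a₂ b₂ N : ℕ, 0 < a₁ → 0 < a₂ → Nat.Coprime a₁ b₁ →
    Nat.Coprime a₂ b₂ → a₁ * b₂ ≠ a₂ * b₁ → 2 ≤ N →
    (((Finset.Icc 1 N).filter (fun n => (a₁ * n + b₁).Prime ∧ (a₂ * n + b₂).Prime)).card : ℝ) ≤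
      C * (GG (a₁ * a₂ * (((a₁ * b₂ : ℕ) : ℤ) - ((a₂ * b₁ : ℕ) : ℤ)).natAbs)) ^ 2 * N /
        (Real.log N) ^ 2) (j N : ℕ) (hj : 1 ≤ j) (hN : 2 ≤ N) :
    (((Icc 1 N).filter (fun n : ℕ => n.Prime ∧ (j * n + 1).Prime)).card : ℝ) ≤
      C * GG j ^ 2 * N / (Real.log N) ^ 2 := by
  have h1 := h 1 0 j 1 N one_pos hj (Nat.coprime_one_left _) (Nat.coprime_one_right _)
    (by omega) hN
  have e1 : (((1 * 1 : ℕ) : ℤ) - ((j * 0 : ℕ) : ℤ)).natAbs = 1 := by omega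
  rw [e1] at h1
  simpa only [one_mul, mul_one, add_zero] using h1

theorem one_minus (C : ℝ) (h : ∀ a₁ b₁ a₂ b₂ N : ℕ, 0 < a₁ → 0 < a₂ → Nat.Coprime a₁ b₁ →
    Nat.Coprime a₂ b₂ → a₁ * b₂ ≠ a₂ * b₁ → 2 ≤ N →
    (((Finset.Icc 1 N).filter (fun n => (a₁ * n + b₁).Prime ∧ (a₂ * n + b₂).Prime)).card : ℝ) ≤
      C * (GG (a₁ * a₂ * (((a₁ * b₂ : ℕ) : ℤ) - ((a₂ * b₁ : ℕ) : ℤ)).natAbs)) ^ 2 * N /
        (Real.log N) ^ 2) (j N : ℕ) (hj : 1 ≤ j) (hN : 2 ≤ N) :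
    (((Icc 1 N).filter (fun n : ℕ => n.Prime ∧ (j * n - 1).Prime)).card : ℝ) ≤
      C * GG j ^ 2 * N / (Real.log N) ^ 2 := by
  have h1 := h 1 1 j (j - 1) N one_pos hj (Nat.coprime_one_left _) (by
    obtain ⟨i, rfl⟩ : ∃ i, j = i + 1 := ⟨j - 1, by omega⟩
    rw [Nat.add_sub_cancel]
    exact (Nat.coprime_self_add_left.2 (Nat.coprime_one_left i))) (by omega) hN
  have e1 : (((1 * (j - 1) : ℕ) : ℤ) - ((j * 1 : ℕ) : ℤ)).natAbs = 1 := by omega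
  rw [e1] at h1
  simp only [one_mul, mul_one] at h1
  refine le_trans ?_ h1
  have hsub : (Icc 1 N).filter (fun n : ℕ => n.Prime ∧ (j * n - 1).Prime) ⊆
      ((Icc 1 N).filter (fun n => (n + 1).Prime ∧ (j * n + (j - 1)).Prime)).image
        (fun n => n + 1) := by
    intro n hn
    rw [mem_filter, mem_Icc] at hn
    obtain ⟨⟨h1, h2⟩, h3, h4⟩ := hn
    have h5 := h3.two_le
    rw [mem_image]
    refine ⟨n - 1, ?_, by omega⟩
    rw [mem_filter, mem_Icc]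
    refine ⟨⟨by omega, by omega⟩, ?_, ?_⟩
    · rwa [Nat.sub_add_cancel h1]
    · have e : j * (n - 1) + (j - 1) = j * n - 1 := by
        obtain ⟨m, rfl⟩ : ∃ m, n = m + 1 := ⟨n - 1, by omega⟩
        rw [Nat.add_sub_cancel, Nat.mul_succ]
        omega
      rwa [e]
  exact_mod_cast (card_le_card hsub).trans card_image_le

open Classical in
/-- Few primes `n ≤ N` are such that `j n + 1` or `j n - 1` is a prime for some `j ≤ K`. -/
theorem few : ∃ C : ℝ, 0 < C ∧ ∀ N K : ℕ, 2 ≤ N →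
    (((Icc 1 N).filter (fun n : ℕ => n.Prime ∧ ∃ j : ℕ, 1 ≤ j ∧ j ≤ K ∧
      ((j * n + 1).Prime ∨ (j * n - 1).Prime))).card : ℝ) ≤ C * K * N / (Real.log N) ^ 2 := by
  obtain ⟨C, hC, h⟩ := sieve_two'
  obtain ⟨M, hM⟩ := Mert.totRatio_moment
  have hM1 : 1 ≤ M := by
    have := hM 1
    simp at this
    exact this
  refine ⟨2 * C * M, by positivity, fun N K hN => ?_⟩
  have hsub : (Icc 1 N).filter (fun n : ℕ => n.Prime ∧ ∃ j : ℕ, 1 ≤ j ∧ j ≤ K ∧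
      ((j * n + 1).Prime ∨ (j * n - 1).Prime)) ⊆ (Icc 1 K).biUnion (fun j =>
      (Icc 1 N).filter (fun n : ℕ => n.Prime ∧ (j * n + 1).Prime) ∪
      (Icc 1 N).filter (fun n : ℕ => n.Prime ∧ (j * n - 1).Prime)) := by
    intro n hn
    rw [mem_filter] at hn
    obtain ⟨hnN, hp, j, hj1, hjK, h⟩ := hn
    rw [mem_biUnion]
    refine ⟨j, mem_Icc.2 ⟨hj1, hjK⟩, ?_⟩
    rw [mem_union, mem_filter, mem_filter]
    rcases h with h | h
    · exact Or.inl ⟨hnN, hp, h⟩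
    · exact Or.inr ⟨hnN, hp, h⟩
  have h1 : (((Icc 1 N).filter (fun n : ℕ => n.Prime ∧ ∃ j : ℕ, 1 ≤ j ∧ j ≤ K ∧
      ((j * n + 1).Prime ∨ (j * n - 1).Prime))).card : ℝ) ≤
      ∑ j ∈ Icc 1 K, 2 * C * (N / (Real.log N) ^ 2) * ((j : ℝ) / (Nat.totient j : ℝ)) ^ 6 := by
    calc (((Icc 1 N).filter (fun n : ℕ => n.Prime ∧ ∃ j : ℕ, 1 ≤ j ∧ j ≤ K ∧
          ((j * n + 1).Prime ∨ (j * n - 1).Prime))).card : ℝ)
        ≤ ((∑ j ∈ Icc 1 K, (((Icc 1 N).filter (fun n : ℕ => n.Prime ∧ (j * n + 1).Prime)).card +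
            ((Icc 1 N).filter (fun n : ℕ => n.Prime ∧ (j * n - 1).Prime)).card) : ℕ) : ℝ) := by
          exact_mod_cast (card_le_card hsub).trans
            (card_biUnion_le.trans (sum_le_sum fun j _ => card_union_le _ _))
      _ ≤ _ := by
          push_cast
          refine sum_le_sum fun j hj => ?_
          have hj1 := (mem_Icc.1 hj).1
          have a1 := one_plus C h j N hj1 hN
          have a2 := one_minus C h j N hj1 hN
          have a3 : GG j ^ 2 ≤ ((j : ℝ) / (Nat.totient j : ℝ)) ^ 6 := GG_sq_le_six hj1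
          have a4 : C * GG j ^ 2 * N / (Real.log N) ^ 2 ≤
              C * (N / (Real.log N) ^ 2) * ((j : ℝ) / (Nat.totient j : ℝ)) ^ 6 := by
            have : C * GG j ^ 2 * N / (Real.log N) ^ 2 =
                C * (N / (Real.log N) ^ 2) * GG j ^ 2 := by ring
            rw [this]
            gcongr
          linarith
  refine h1.trans ?_
  rw [← mul_sum]
  calc 2 * C * (N / (Real.log N) ^ 2) * ∑ j ∈ Icc 1 K, ((j : ℝ) / (Nat.totient j : ℝ)) ^ 6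
      ≤ 2 * C * (N / (Real.log N) ^ 2) * (M * K) := by
        gcongr
        exact hM K
    _ = 2 * C * M * K * N / (Real.log N) ^ 2 := by ring

end Run7.h380.RF
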