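import Pool.Agent.Run7.h380.RF.Few
import Pool.Agent.Results.MP_2f88e5_nt.RecordPrimeFreeMultiples

set_option autoImplicit false

/-!
# Terms of prime index of Lucas sequences without small prime factors
-/

namespace Run7.h380.RF

open Finset

/-- `q` is a prime factor of the product of the two parts of `(1 + √2) ^ n`, or of
`U n * V n` for Lucas sequences `U`, `V` with any parameters `P`, `Q` (and `q` does not divide
`2 P Q (P ^ 2 - 4 Q)`). -/
def Factor (n q : ℕ) : Prop :=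
  q.Prime ∧ (q ∣ (sol n).1 * (sol n).2 ∨
    ∃ P Q : ℤ, ¬ (q : ℤ) ∣ 2 * P * Q * (P ^ 2 - 4 * Q) ∧ (q : ℤ) ∣ U P Q n * V P Q n)

theorem Factor.dvd {n q : ℕ} (hn : n.Prime) (hn2 : n ≠ 2) (h : Factor n q) :
    n ∣ q - 1 ∨ n ∣ q + 1 := by
  obtain ⟨hq, h | ⟨P, Q, h1, h2⟩⟩ := h
  · exact rank_sol hn hn2 hq h
  · exact rank hn hq h2 h1

theorem partA : ∃ C : ℝ, 0 < C ∧ ∀ N K : ℕ, 2 ≤ N →
    ({n : ℕ | n.Prime ∧ n ≠ 2 ∧ n ≤ N ∧ ∃ q : ℕ, Factor n q ∧ q ≤ K * n}.ncard : ℝ) ≤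
      C * K * N / (Real.log N) ^ 2 := by
  classical
  obtain ⟨C, hC, h⟩ := few
  refine ⟨C, hC, fun N K hN => le_trans ?_ (h N K hN)⟩
  rw [← Set.ncard_coe_finset]
  refine Nat.cast_le.2 (Set.ncard_le_ncard ?_ (Finset.finite_toSet _))
  rintro n ⟨hn, hn2, hnN, q, hq, hqK⟩
  rw [Finset.mem_coe, mem_filter, mem_Icc]
  refine ⟨⟨hn.one_le, hnN⟩, hn, ?_⟩
  obtain ⟨j, hj, hs⟩ := shape hq.1 (hq.dvd hn hn2)
  have hn3 : 3 ≤ n := by
    have := hn.two_le
    omega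
  refine ⟨j, hj, ?_, ?_⟩
  · by_contra hcon
    push Not at hcon
    have h1 : (K + 1) * n ≤ j * n := Nat.mul_le_mul_right n hcon
    rw [Nat.succ_mul] at h1
    rcases hs with hs | ⟨hs, _⟩ <;> omega
  · rcases hs with hs | ⟨hs, _⟩
    · exact Or.inl (hs ▸ hq.1)
    · exact Or.inr (hs ▸ hq.1)

/-- The record scale `f(x) = log x (log₂ x)² log₄ x / (log₃ x)²` (iterated natural logarithms). -/
noncomputable def f (x : ℝ) : ℝ :=
  Real.log x * (Real.log (Real.log x)) ^ 2 * Real.log (Real.log (Real.log (Real.log x))) /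
    (Real.log (Real.log (Real.log x))) ^ 2

theorem partB (d : ℕ) (hd : Squarefree d) : ∃ c : ℝ, 0 < c ∧ ∃ X₀ : ℝ, ∀ X : ℝ, X₀ ≤ X →
    ∀ h : ℕ, h.Coprime d →
    X ^ (9 / 10 : ℝ) ≤ ({n : ℕ | n.Prime ∧ X < n ∧ (n : ℝ) ≤ 3 * X ∧ n ≡ h [MOD d] ∧
      ∀ q : ℕ, Factor n q → c * X * f X < q}.ncard : ℝ) := by
  obtain ⟨c, hc, X₀, hX₀⟩ := Pool.Agent.Results.MP_2f88e5_nt.RecordPrimeFreeMultiples.result
    1 1 one_ne_zero one_ne_zero d hd
  refine ⟨c / 2, by positivity, max X₀ 2, fun X hX h hh => ?_⟩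
  have hX1 : X₀ ≤ X := (le_max_left _ _).trans hX
  have hX2 : 2 ≤ X := (le_max_right _ _).trans hX
  refine (hX₀ X hX1 h hh).trans ?_
  have hfin : {n : ℕ | n.Prime ∧ X < n ∧ (n : ℝ) ≤ 3 * X ∧ n ≡ h [MOD d] ∧
      ∀ q : ℕ, Factor n q → c / 2 * X * f X < q}.Finite := by
    apply (Set.finite_Iic ⌊3 * X⌋₊).subset
    intro p hp
    exact Set.mem_Iic.2 (Nat.le_floor hp.2.2.1)
  refine Nat.cast_le.2 (Set.ncard_le_ncard ?_ hfin)
  rintro n ⟨hn, h1, h2, h3, h4⟩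
  refine ⟨hn, h1, h2, h3, fun q hq => ?_⟩
  have hn2 : n ≠ 2 := by
    rintro rfl
    push_cast at h1
    linarith
  obtain ⟨j, hj, hs⟩ := shape hq.1 (hq.dvd hn hn2)
  have hff : Pool.Agent.Results.MP_2f88e5_nt.RecordPrimeFreeMultiples.f X = f X := rfl
  have hjf : c * f X < j := by
    by_contra hcon
    push Not at hcon
    rcases hs with hs | ⟨hs, hs2⟩
    · refine h4 (j : ℤ) (by omega) ?_ ?_
      · rw [hff]
        push_cast
        rw [abs_of_nonneg (by positivity)]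
        exact hcon
      · have e : ((1 : ℤ) * (j : ℤ) * (n : ℤ) + 1).natAbs = q := by
          rw [hs]
          have : (1 : ℤ) * (j : ℤ) * (n : ℤ) + 1 = ((j * n + 1 : ℕ) : ℤ) := by push_cast; ring
          rw [this, Int.natAbs_natCast]
        rw [e]
        exact hq.1
    · refine h4 (-(j : ℤ)) (by omega) ?_ ?_
      · rw [hff]
        push_cast
        rw [abs_neg, abs_of_nonneg (by positivity)]
        exact hcon
      · have e : ((1 : ℤ) * (-(j : ℤ)) * (n : ℤ) + 1).natAbs = q := by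
          have : (1 : ℤ) * (-(j : ℤ)) * (n : ℤ) + 1 = -((q : ℕ) : ℤ) := by
            rw [hs, Nat.cast_sub (by omega)]
            push_cast
            ring
          rw [this, Int.natAbs_neg, Int.natAbs_natCast]
        rw [e]
        exact hq.1
  have hX0 : 0 < X := by linarith
  have hjn : ((j : ℝ) * n) / 2 ≤ q := by
    have h5 : j * n ≤ 2 * q := by
      rcases hs with hs | ⟨hs, hs2⟩ <;> omega
    have h6 : (j : ℝ) * n ≤ 2 * q := by exact_mod_cast h5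
    linarith
  refine lt_of_lt_of_le ?_ hjn
  have hjpos : (0 : ℝ) < j := by exact_mod_cast hj
  have h7 : c * f X * X < (j : ℝ) * n := by
    rcases le_or_gt (c * f X) 0 with h8 | h8
    · have h9 : c * f X * X ≤ 0 := mul_nonpos_of_nonpos_of_nonneg h8 hX0.le
      have h10 : 0 < (j : ℝ) * n := mul_pos hjpos (by linarith)
      linarith
    · exact mul_lt_mul'' hjf h1 h8.le hX0.le
  have h11 : c / 2 * X * f X = (c * f X * X) / 2 := by ring
  rw [h11]
  linarith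

end Run7.h380.RF
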