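import Mathlib

set_option autoImplicit false

/-!
# The prime factors of the terms of prime index of Lucas sequences
-/

namespace Run7.h380.RF

/-- The Lucas sequence of the first kind: `U 0 = 0`, `U 1 = 1`,
`U (n + 2) = P * U (n + 1) - Q * U n`. -/
def U (P Q : ℤ) : ℕ → ℤ
  | 0 => 0
  | 1 => 1
  | n + 2 => P * U P Q (n + 1) - Q * U P Q n

/-- The Lucas sequence of the second kind: `V 0 = 2`, `V 1 = P`,
`V (n + 2) = P * V (n + 1) - Q * V n`. -/
def V (P Q : ℤ) : ℕ → ℤ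
  | 0 => 2
  | 1 => P
  | n + 2 => P * V P Q (n + 1) - Q * V P Q n

/-- `sol m = (x, y)` with `x + y √2 = (1 + √2) ^ m`. -/
def sol : ℕ → ℕ × ℕ
  | 0 => (1, 0)
  | m + 1 => ((sol m).1 + 2 * (sol m).2, (sol m).1 + (sol m).2)

theorem binet {F : Type*} [CommRing F] (P Q : ℤ) (a b : F) (hP : a + b = P) (hQ : a * b = Q)
    (n : ℕ) : (a - b) * (U P Q n : F) = a ^ n - b ^ n ∧ (V P Q n : F) = a ^ n + b ^ n := by
  induction n using Nat.strong_induction_on with
  | _ n ih =>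
    match n with
    | 0 => simp [U, V]; norm_num
    | 1 => simp [U, V, hP]
    | n + 2 =>
      obtain ⟨h1, h2⟩ := ih n (by omega)
      obtain ⟨h3, h4⟩ := ih (n + 1) (by omega)
      constructor
      · simp only [U]
        push_cast
        rw [← hP, ← hQ]
        linear_combination (a + b) * h3 - a * b * h1
      · simp only [V]
        push_cast
        rw [← hP, ← hQ]
        linear_combination (a + b) * h4 - a * b * h2

theorem rank_aux {P Q : ℤ} {n q : ℕ} (hn : n.Prime) (hq : q.Prime)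
    (hd : (q : ℤ) ∣ U P Q n * V P Q n) (hnd : ¬ (q : ℤ) ∣ 2 * P * Q * (P ^ 2 - 4 * Q))
    (F : Type) [Field F] [IsAlgClosed F] [CharP F q] :
    n ∣ q - 1 ∨ n ∣ q + 1 := by
  have := Fact.mk hq
  have := Fact.mk hn
  have : ExpChar F q := ExpChar.prime hq
  have cast0 : ∀ z : ℤ, (z : F) = 0 ↔ (q : ℤ) ∣ z := fun z => CharP.intCast_eq_zero_iff F q z
  have hnd' : ((2 * P * Q * (P ^ 2 - 4 * Q) : ℤ) : F) ≠ 0 := fun h => hnd ((cast0 _).1 h)
  push_cast at hnd'
  have h2 : (2 : F) ≠ 0 := by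
    intro h; apply hnd'; rw [h]; ring
  have hPne : (P : F) ≠ 0 := by
    intro h; apply hnd'; rw [h]; ring
  have hQne : (Q : F) ≠ 0 := by
    intro h; apply hnd'; rw [h]; ring
  have hDne : ((P : F) ^ 2 - 4 * Q) ≠ 0 := by
    intro h; apply hnd'; rw [h]; ring
  obtain ⟨s, hs⟩ := IsAlgClosed.exists_pow_nat_eq ((P : F) ^ 2 - 4 * Q) (n := 2) (by norm_num)
  have hs0 : s ≠ 0 := by
    intro h; apply hDne; rw [← hs, h]; ring
  obtain ⟨a, ha⟩ : ∃ a : F, a = (P + s) / 2 := ⟨_, rfl⟩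
  obtain ⟨b, hb⟩ : ∃ b : F, b = (P - s) / 2 := ⟨_, rfl⟩
  have hab : a + b = P := by rw [ha, hb]; field_simp; ring
  have hamb : a - b = s := by rw [ha, hb]; field_simp; ring
  have hmul : a * b = Q := by
    have h4 : (4 : F) ≠ 0 := by
      have : (4 : F) = 2 * 2 := by norm_num
      rw [this]; exact mul_ne_zero h2 h2
    have : 4 * (a * b) = 4 * (Q : F) := by
      rw [ha, hb]; field_simp; linear_combination -hs
    exact mul_left_cancel₀ h4 this
  have ha0 : a ≠ 0 := by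
    intro h; apply hQne; rw [← hmul, h]; ring
  have hb0 : b ≠ 0 := by
    intro h; apply hQne; rw [← hmul, h]; ring
  -- the Frobenius map
  have fa : ∀ x : F, frobenius F q x = x ^ q := fun x => frobenius_def q x
  have hfP : (frobenius F q) (P : F) = P := map_intCast _ P
  have hfQ : (frobenius F q) (Q : F) = Q := map_intCast _ Q
  have hf2 : (frobenius F q) (2 : F) = 2 := map_ofNat _ 2
  have hf4 : (frobenius F q) (4 : F) = 4 := map_ofNat _ 4
  have hfs : (frobenius F q s) ^ 2 = s ^ 2 := by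
    rw [← map_pow, hs, map_sub, map_mul, map_pow, hfP, hfQ, hf4]
  have hda : (q : ℤ) ∣ U P Q n * V P Q n := hd
  have hUV : ((U P Q n : ℤ) : F) * (V P Q n : F) = 0 := by
    have := (cast0 _).2 hda
    push_cast at this
    exact this
  obtain ⟨e1, e2⟩ := binet P Q a b hab hmul n
  have hpow : a ^ (2 * n) = b ^ (2 * n) := by
    have : (a ^ n - b ^ n) * (a ^ n + b ^ n) = 0 := by
      rw [← e1, ← e2]
      calc (a - b) * (U P Q n : F) * (V P Q n : F) = (a - b) * ((U P Q n : F) * (V P Q n : F)) := by ring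
        _ = 0 := by rw [hUV]; ring
    have h3 : a ^ (2 * n) - b ^ (2 * n) = (a ^ n - b ^ n) * (a ^ n + b ^ n) := by ring
    rw [this] at h3
    exact sub_eq_zero.1 h3
  set ρ : F := (a / b) ^ 2 with hρ
  have hρn : ρ ^ n = 1 := by
    rw [hρ, ← pow_mul, div_pow, hpow, div_self (pow_ne_zero _ hb0)]
  have hρ1 : ρ ≠ 1 := by
    intro h
    rw [hρ, div_pow, div_eq_one_iff_eq (pow_ne_zero _ hb0)] at h
    have : (a - b) * (a + b) = 0 := by linear_combination h
    rw [hamb, hab] at this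
    exact (mul_ne_zero hs0 hPne) this
  have hord : orderOf ρ = n := orderOf_eq_prime hρn hρ1
  rcases sq_eq_sq_iff_eq_or_eq_neg.1 hfs with h | h
  · left
    have hfa : a ^ q = a := by
      rw [← fa, ha, map_div₀, map_add, hfP, hf2, h]
    have hfb : b ^ q = b := by
      rw [← fa, hb, map_div₀, map_sub, hfP, hf2, h]
    have ha1 : a ^ (q - 1) = 1 := by
      have : a ^ (q - 1) * a = 1 * a := by
        rw [← pow_succ, Nat.sub_add_cancel hq.one_le, hfa, one_mul]
      exact mul_right_cancel₀ ha0 this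
    have hb1 : b ^ (q - 1) = 1 := by
      have : b ^ (q - 1) * b = 1 * b := by
        rw [← pow_succ, Nat.sub_add_cancel hq.one_le, hfb, one_mul]
      exact mul_right_cancel₀ hb0 this
    rw [← hord]
    apply orderOf_dvd_of_pow_eq_one
    rw [hρ, ← pow_mul, mul_comm, pow_mul, div_pow, ha1, hb1]
    simp
  · right
    have hfa : a ^ q = b := by
      rw [← fa, ha, map_div₀, map_add, hfP, hf2, h, hb]
      ring
    have hfb : b ^ q = a := by
      rw [← fa, hb, map_div₀, map_sub, hfP, hf2, h, ha]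
      ring
    rw [← hord]
    apply orderOf_dvd_of_pow_eq_one
    have h1 : (a / b) ^ (q + 1) = 1 := by
      rw [div_pow, pow_succ a, pow_succ b, hfa, hfb, mul_comm b a,
        div_self (mul_ne_zero ha0 hb0)]
    rw [hρ, ← pow_mul, mul_comm, pow_mul, h1, one_pow]

/-- The prime factors of the terms of prime index `n` are `± 1` modulo `n`. -/
theorem rank {P Q : ℤ} {n q : ℕ} (hn : n.Prime) (hq : q.Prime)
    (hd : (q : ℤ) ∣ U P Q n * V P Q n) (hnd : ¬ (q : ℤ) ∣ 2 * P * Q * (P ^ 2 - 4 * Q)) :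
    n ∣ q - 1 ∨ n ∣ q + 1 := by
  have := Fact.mk hq
  exact rank_aux hn hq hd hnd (AlgebraicClosure (ZMod q))

theorem sol_eq (m : ℕ) : (2 * (sol m).1 : ℤ) = V 2 (-1) m ∧ ((sol m).2 : ℤ) = U 2 (-1) m := by
  induction m using Nat.strong_induction_on with
  | _ m ih =>
    match m with
    | 0 => simp [sol, U, V]
    | 1 => simp [sol, U, V]
    | m + 2 =>
      obtain ⟨h1, h2⟩ := ih m (by omega)
      obtain ⟨h3, h4⟩ := ih (m + 1) (by omega)
      have e1 : (sol (m + 2)).1 = (sol (m + 1)).1 + 2 * (sol (m + 1)).2 := rfl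
      have e2 : (sol (m + 2)).2 = (sol (m + 1)).1 + (sol (m + 1)).2 := rfl
      have e3 : (sol (m + 1)).1 = (sol m).1 + 2 * (sol m).2 := rfl
      have e4 : (sol (m + 1)).2 = (sol m).1 + (sol m).2 := rfl
      have d1 : V 2 (-1) (m + 2) = 2 * V 2 (-1) (m + 1) - (-1) * V 2 (-1) m := rfl
      have d2 : U 2 (-1) (m + 2) = 2 * U 2 (-1) (m + 1) - (-1) * U 2 (-1) m := rfl
      rw [d1, d2, ← h1, ← h2, ← h3, ← h4, e1, e2]
      constructor
      · rw [e3, e4]; push_cast; ring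
      · rw [e3, e4]; push_cast; ring

theorem sol_real (m : ℕ) : ((sol m).1 : ℝ) + ((sol m).2 : ℝ) * √2 = (1 + √2) ^ m := by
  have h2 : √(2 : ℝ) * √2 = 2 := Real.mul_self_sqrt (by norm_num)
  induction m with
  | zero => simp [sol]
  | succ m ih =>
    have e1 : (sol (m + 1)).1 = (sol m).1 + 2 * (sol m).2 := rfl
    have e2 : (sol (m + 1)).2 = (sol m).1 + (sol m).2 := rfl
    rw [pow_succ, ← ih, e1, e2]
    push_cast
    linear_combination -((sol m).2 : ℝ) * h2

/-- the equation -/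
theorem sol_norm (m : ℕ) : ((sol m).1 : ℤ) ^ 2 - 2 * ((sol m).2 : ℤ) ^ 2 = (-1) ^ m := by
  induction m with
  | zero => simp [sol]
  | succ m ih =>
    have e1 : (sol (m + 1)).1 = (sol m).1 + 2 * (sol m).2 := rfl
    have e2 : (sol (m + 1)).2 = (sol m).1 + (sol m).2 := rfl
    have e3 : (-1 : ℤ) ^ (m + 1) = -(-1) ^ m := by ring
    rw [e1, e2, e3, ← ih]
    push_cast
    ring

theorem sol_odd {m : ℕ} (hm : Odd m) : Odd (sol m).1 ∧ Odd (sol m).2 := by
  have h := sol_norm m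
  rw [hm.neg_one_pow] at h
  constructor
  · rw [← Nat.not_even_iff_odd]
    rintro ⟨k, hk⟩
    rw [hk] at h
    push_cast at h
    have h1 : 2 * (2 * (k : ℤ) ^ 2 - ((sol m).2 : ℤ) ^ 2) = -1 := by linear_combination h
    omega
  · rw [← Nat.not_even_iff_odd]
    rintro ⟨k, hk⟩
    rw [hk] at h
    push_cast at h
    -- `x ^ 2 = -1` modulo `4`
    have h1 : ((sol m).1 : ℤ) ^ 2 = 4 * (2 * (k : ℤ) ^ 2) - 1 := by linear_combination h
    rcases Int.even_or_odd' ((sol m).1 : ℤ) with ⟨j, hj | hj⟩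
    · rw [hj] at h1
      have h2 : 4 * (2 * (k : ℤ) ^ 2 - j ^ 2) = 1 := by linear_combination -h1
      omega
    · rw [hj] at h1
      have h2 : 4 * (2 * (k : ℤ) ^ 2 - j ^ 2 - j) = 2 := by linear_combination -h1
      omega

theorem rank_sol {n q : ℕ} (hn : n.Prime) (hn2 : n ≠ 2) (hq : q.Prime)
    (hd : q ∣ (sol n).1 * (sol n).2) : n ∣ q - 1 ∨ n ∣ q + 1 := by
  have hodd : Odd n := hn.odd_of_ne_two hn2
  obtain ⟨o1, o2⟩ := sol_odd hodd
  have hq2 : q ≠ 2 := by
    rintro rfl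
    have h1 := o1.mul o2
    rw [← Nat.not_even_iff_odd] at h1
    exact h1 (even_iff_two_dvd.2 hd)
  obtain ⟨e1, e2⟩ := sol_eq n
  apply rank (P := 2) (Q := -1) hn hq
  · rw [← e1, ← e2]
    have : (2 * ((sol n).2 * (sol n).1 : ℕ) : ℤ) = ((sol n).2 : ℤ) * (2 * ((sol n).1 : ℤ)) := by
      push_cast; ring
    rw [← this]
    apply Dvd.dvd.mul_left
    rw [mul_comm (sol n).2]
    exact_mod_cast hd
  · intro h
    have h5 : (2 * 2 * (-1) * (2 ^ 2 - 4 * (-1)) : ℤ) = -(2 : ℤ) ^ 5 := by norm_num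
    rw [h5, Int.dvd_neg] at h
    have h6 : q ∣ 2 ^ 5 := by exact_mod_cast h
    exact hq2 ((Nat.prime_dvd_prime_iff_eq hq Nat.prime_two).1 (hq.dvd_of_dvd_pow h6))

/-- the prime factors are `j n ± 1` -/
theorem shape {n q : ℕ} (hq : q.Prime) (h : n ∣ q - 1 ∨ n ∣ q + 1) :
    ∃ j : ℕ, 1 ≤ j ∧ (q = j * n + 1 ∨ (q = j * n - 1 ∧ 2 ≤ j * n)) := by
  have hq2 := hq.two_le
  rcases h with ⟨j, hj⟩ | ⟨j, hj⟩
  · refine ⟨j, ?_, Or.inl ?_⟩
    · rcases Nat.eq_zero_or_pos j with h0 | h0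
      · rw [h0] at hj; omega
      · exact h0
    · rw [mul_comm j n]; omega
  · refine ⟨j, ?_, Or.inr ⟨?_, ?_⟩⟩
    · rcases Nat.eq_zero_or_pos j with h0 | h0
      · rw [h0] at hj; omega
      · exact h0
    · rw [mul_comm j n]; omega
    · rw [mul_comm j n]; omega

end Run7.h380.RF
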